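import Pool.Agent.Helper69.FF.St

/-!
# Project FF (MP_d684b1_an): module GR, greedy disjoint blocks
-/

set_option autoImplicit false

namespace Pool.Agent.Helper38.FF

open _root_.FF DV
open scoped BigOperators

theorem hGR : StGR := by
  intro s r M J V c K η hc hη hmono hlow hup hβ hK hs
  choose β hβS hβc hβV using hβ
  let S : ℕ → Finset (Fin s) := fun t => Nat.rec Finset.univ (fun _ T => T \ β T) t
  have S0 : S 0 = Finset.univ := rfl
  have Ss : ∀ t, S (t + 1) = S t \ β (S t) := fun _ => rfl
  have anti : Antitone S := antitone_nat_of_succ_le (fun t => by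
    rw [Ss]
    exact Finset.sdiff_subset)
  have card : ∀ t, s ≤ (S t).card + r * t := by
    intro t
    induction t with
    | zero => rw [S0, Finset.card_univ, Fintype.card_fin]; omega
    | succ t ih =>
      rw [Ss, Finset.card_sdiff_of_subset (hβS _), Nat.mul_succ]
      have h1 := hβc (S t)
      omega
  have ne : ∀ t, t ≤ M * J → (S t).Nonempty := by
    intro t ht
    rw [← Finset.card_pos]
    have h1 := card t
    have h2 : r * t ≤ r * (M * J) := Nat.mul_le_mul_left r ht
    omega
  obtain ⟨a, haJ, ha⟩ : ∃ a < J, V (S (M * a)) ≤ (1 + η) * V (S (M * (a + 1))) := by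
    by_contra hcon
    push Not at hcon
    have ind : ∀ a ≤ J, V (S (M * a)) * (1 + η) ^ a ≤ V (S 0) := by
      intro a
      induction a with
      | zero => intro _; simp
      | succ a ih =>
        intro ha
        have h1 := hcon a (by omega)
        have h2 := ih (by omega)
        calc V (S (M * (a + 1))) * (1 + η) ^ (a + 1)
            = ((1 + η) * V (S (M * (a + 1)))) * (1 + η) ^ a := by ring
          _ ≤ V (S (M * a)) * (1 + η) ^ a := mul_le_mul_of_nonneg_right h1.le (by positivity)
          _ ≤ V (S 0) := h2
    have h3 := ind J le_rfl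
    have h4 := hlow (S (M * J)) (ne _ le_rfl)
    have h5 : c * (1 + η) ^ J ≤ V (S (M * J)) * (1 + η) ^ J :=
      mul_le_mul_of_nonneg_right h4 (by positivity)
    rw [S0] at h3
    linarith
  refine ⟨S (M * a), fun l => β (S (M * a + l)), hlow _ (ne _ (Nat.mul_le_mul_left M haJ.le)),
    ?_, ?_⟩
  · intro l
    have hl := l.2
    refine ⟨(hβS _).trans (anti (Nat.le_add_right _ _)), hβc _, ?_⟩
    calc V (S (M * a)) ≤ (1 + η) * V (S (M * (a + 1))) := ha
      _ ≤ (1 + η) * V (S (M * a + l)) := by
          refine mul_le_mul_of_nonneg_left (hmono _ _ (anti ?_)) (by linarith)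
          rw [Nat.mul_succ]
          omega
      _ ≤ (1 + η) * V (β (S (M * a + l))) := mul_le_mul_of_nonneg_left (hβV _) (by linarith)
  · intro l l' hne
    have key : ∀ t t', t < t' → Disjoint (β (S t)) (β (S t')) := by
      intro t t' h
      have h1 : β (S t') ⊆ S t \ β (S t) := (hβS _).trans (anti h)
      exact Finset.disjoint_sdiff.mono_right h1
    rcases lt_or_gt_of_ne (fun h : (l : ℕ) = l' => hne (Fin.ext h)) with h | h
    · exact key _ _ (by omega)
    · exact (key _ _ (by omega)).symm

end Pool.Agent.Helper38.FF
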